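import Pool.Agent.H21.SumDiff

set_option autoImplicit false

namespace Pool.Agent.Results.MP_ecebd1_co.Unbounded
open Pool.Agent.H21.SumDiff

theorem result (k : ℕ) : ∃ (V : Type) (_ : Finite V) (G : SimpleGraph V),
    G.Colorable 2 ∧ (∃ u v, G.Adj u v) ∧ (k : ℤ) ≤ (df G : ℤ) - ⌈(sm G : ℚ) / 2⌉ := by
  obtain ⟨V, hV, G, h1, h2, h3, h4⟩ := main (2 * k + 1)
  refine ⟨V, hV, G, h1, h2, ?_⟩
  have : ⌈(sm G : ℚ) / 2⌉ ≤ k + 1 := by
    rw [Int.ceil_le, h3]; push_cast; linarith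
  omega

end Pool.Agent.Results.MP_ecebd1_co.Unbounded
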